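import Pool.Agent.MP_7e0f10_lc.Lock

/-! No straight segment of angle space leaves the limiting configuration; compactness. -/

namespace Pool.Agent.MP_7e0f10_lc

open Filter Topology Set

/-- State space: length factors and direction offsets of the seven links. -/
abbrev St := (Fin 7 → ℝ) × (Fin 7 → ℝ)

/-- The limiting state. -/
def x0 : St := (fun _ => 1, 0)

/-- Link vectors of a state. -/
noncomputable def dv (x : St) : Fin 7 → ℂ :=
  fun j => D j * (x.1 j : ℂ) * Complex.exp ((x.2 j : ℂ) * Complex.I)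

@[fun_prop]
lemma continuous_dv : Continuous dv := by unfold dv; fun_prop

lemma dv_x0 : dv x0 = D := by ext j; simp [dv, x0]

lemma deriv_step {c0 c1 c2 c3 : ℂ} {v1 v2 v3 : ℝ}
    (h : ∀ t ∈ Icc (0 : ℝ) 1, c0 + c1 * Complex.exp (((t * v1 : ℝ) : ℂ) * Complex.I) +
      c2 * Complex.exp (((t * v2 : ℝ) : ℂ) * Complex.I) +
      c3 * Complex.exp (((t * v3 : ℝ) : ℂ) * Complex.I) = 0) :
    ∀ t ∈ Icc (0 : ℝ) 1, 0 + c1 * v1 * Complex.exp (((t * v1 : ℝ) : ℂ) * Complex.I) +
      c2 * v2 * Complex.exp (((t * v2 : ℝ) : ℂ) * Complex.I) +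
      c3 * v3 * Complex.exp (((t * v3 : ℝ) : ℂ) * Complex.I) = 0 := by
  intro t ht
  have hd : ∀ v : ℝ, HasDerivAt (fun s : ℝ => Complex.exp (((s * v : ℝ) : ℂ) * Complex.I))
      (Complex.exp (((t * v : ℝ) : ℂ) * Complex.I) * (v * Complex.I)) t := by
    intro v
    have h1 : HasDerivAt (fun s : ℝ => ((s * v : ℝ) : ℂ)) ((v : ℝ) : ℂ) t := by
      have := ((hasDerivAt_id t).mul_const v).ofReal_comp
      simpa using this
    exact (h1.mul_const Complex.I).cexp
  have h1 := (((((hd v1).const_mul c1).const_add c0).add ((hd v2).const_mul c2)).add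
    ((hd v3).const_mul c3)).hasDerivWithinAt (s := Icc (0 : ℝ) 1)
  have h2 : HasDerivWithinAt (fun _ : ℝ => (0 : ℂ)) 0 (Icc (0 : ℝ) 1) t :=
    (hasDerivAt_const t (0 : ℂ)).hasDerivWithinAt
  have h3 := h2.congr_of_mem (f₁ := fun s : ℝ =>
      c0 + c1 * Complex.exp (((s * v1 : ℝ) : ℂ) * Complex.I) +
      c2 * Complex.exp (((s * v2 : ℝ) : ℂ) * Complex.I) +
      c3 * Complex.exp (((s * v3 : ℝ) : ℂ) * Complex.I)) (fun s hs => h s hs) ht
  have h4 := (uniqueDiffOn_Icc zero_lt_one t ht).eq_deriv _ h1 h3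
  have hI : Complex.I ≠ 0 := Complex.I_ne_zero
  apply mul_left_cancel₀ hI
  linear_combination h4

lemma eq_zero_of_sin {v : ℝ} (hv : |v| < 1) (h : Real.sin v = 0) : v = 0 := by
  have hpi := Real.pi_gt_three
  rw [abs_lt] at hv
  exact (Real.sin_eq_zero_iff_of_lt_of_lt (by linarith) (by linarith)).1 h

lemma dot_dv (v : Fin 7 → ℝ) (j : Fin 7) :
    dot (dv (fun _ => 1, v) j) (dv (fun _ => 1, v) j) = dot (D j) (D j) := by
  unfold dv dot
  simp only [Complex.ofReal_one, mul_one, Complex.mul_re, Complex.mul_im,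
    Complex.exp_ofReal_mul_I_re, Complex.exp_ofReal_mul_I_im]
  have := Real.sin_sq_add_cos_sq (v j)
  linear_combination ((D j).re ^ 2 + (D j).im ^ 2) * this

/-- No straight segment leaves the limiting configuration inside the closed region. -/
lemma no_segment {v : Fin 7 → ℝ} (h0 : v 0 = 0) (hv : ‖v‖ < 1)
    (h : ∀ t ∈ Icc (0 : ℝ) 1, Near (dv (fun _ => 1, t • v)) ∧ Cl (dv (fun _ => 1, t • v))) :
    v = 0 := by
  have hj : ∀ j, |v j| < 1 := fun j => lt_of_le_of_lt (norm_le_pi_norm v j) hv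
  have L : ∀ t ∈ Icc (0 : ℝ) 1, _ := fun t ht => locked (h t ht).1 (h t ht).2
    (by rw [dot_dv]; simp [D, dot]; norm_num) (by rw [dot_dv]; simp [D, dot]; norm_num)
    (by rw [dot_dv]; simp [D, dot]; norm_num)
  obtain ⟨a1, a2, -, a4⟩ := L 1 (by simp)
  simp only [one_smul] at a1 a2 a4
  have v5 : v 5 = 0 := by
    apply eq_zero_of_sin (hj 5)
    have := congrArg Complex.im a1
    simpa [dv, D, h0, Complex.exp_ofReal_mul_I_im] using this
  have v1 : v 1 = 0 := by
    apply eq_zero_of_sin (hj 1)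
    have := congrArg Complex.im a2
    simpa [dv, D, v5, Complex.exp_ofReal_mul_I_im] using this
  have v6 : v 6 = 0 := by
    apply eq_zero_of_sin (hj 6)
    simpa [dv, D, v5, cross, Complex.exp_ofReal_mul_I_im] using a4
  have S : ∀ t ∈ Icc (0 : ℝ) 1, (2 : ℂ) +
      (-1 - Complex.I) * Complex.exp (((t * v 2 : ℝ) : ℂ) * Complex.I) +
      (3 + 2 * Complex.I) * Complex.exp (((t * v 3 : ℝ) : ℂ) * Complex.I) +
      (-4 - Complex.I) * Complex.exp (((t * v 4 : ℝ) : ℂ) * Complex.I) = 0 := by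
    intro t ht
    obtain ⟨-, -, a3, -⟩ := L t ht
    simpa [dv, D, v1] using a3
  have S1 := deriv_step S
  have S2 := deriv_step S1
  have T1 := S1 0 (by simp)
  have T2 := S2 0 (by simp)
  have T1r := congrArg Complex.re T1
  have T1i := congrArg Complex.im T1
  have T2r := congrArg Complex.re T2
  simp at T1r T1i T2r
  have e3 : v 3 = 3 * v 4 := by linarith
  have e2 : v 2 = 5 * v 4 := by linarith
  have v4 : v 4 = 0 := by
    rw [e2, e3] at T2r
    have : v 4 ^ 2 = 0 := by nlinarith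
    exact pow_eq_zero_iff (two_ne_zero) |>.1 this
  ext j
  fin_cases j <;> simp [h0, v1, v5, v6, e2, e3, v4]

/-- The invariant persists along a free segment that stays near the limit. -/
lemma inv_along {x : St} {c : Fin 7 → ℝ} (hi : Inv (dv x))
    (hn : ∀ t ∈ Icc (0 : ℝ) 1, Near (dv (x.1, x.2 + t • c)))
    (hf : ∀ t ∈ Icc (0 : ℝ) 1, Free (dv (x.1, x.2 + t • c))) :
    ∀ t ∈ Icc (0 : ℝ) 1, Inv (dv (x.1, x.2 + t • c)) := by
  have hc : ∀ k, Continuous fun t : ℝ => g (dv (x.1, x.2 + t • c)) k := fun k =>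
    (continuous_g k).comp (by fun_prop)
  have hU : IsOpen {t : ℝ | ∀ k, 0 < g (dv (x.1, x.2 + t • c)) k} := by
    rw [Set.ofPred_forall]
    exact isOpen_iInter_of_finite fun k => isOpen_lt continuous_const (hc k)
  have hV : IsOpen {t : ℝ | ∃ k, g (dv (x.1, x.2 + t • c)) k < 0} := by
    rw [Set.ofPred_exists]
    exact isOpen_iUnion fun k => isOpen_lt (hc k) continuous_const
  have := isPreconnected_Icc (a := (0 : ℝ)) (b := 1) |>.subset_left_of_subset_union hU hV ?_ ?_ ?_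
  · intro t ht; exact this ht
  · rw [Set.disjoint_left]
    rintro t h1 ⟨k, h2⟩
    exact absurd (h1 k) (not_lt.2 h2.le)
  · intro t ht
    by_cases h : ∃ k, g (dv (x.1, x.2 + t • c)) k < 0
    · exact Or.inr h
    · left
      push Not at h
      exact inv_of_nonneg (hn t ht) (hf t ht) h
  · refine ⟨0, by simp, ?_⟩
    simpa [Inv] using hi

/-- Free segments that start close to the limit, with the invariant, end close to the limit. -/
lemma core {Q : St → Prop} (hQ : ∀ᶠ x in 𝓝 x0, Q x) :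
    ∀ᶠ x in 𝓝 x0, ∀ c : Fin 7 → ℝ, c 0 = 0 → Inv (dv x) →
      (∀ t ∈ Icc (0 : ℝ) 1, Free (dv (x.1, x.2 + t • c))) →
      Q (x.1, x.2 + c) ∧ Inv (dv (x.1, x.2 + c)) := by
  have hN : ∀ᶠ x in 𝓝 x0, Near (dv x) := by
    have : Tendsto dv (𝓝 x0) (𝓝 D) := by rw [← dv_x0]; exact continuous_dv.continuousAt
    exact this.eventually eventually_near
  obtain ⟨ε, hε, hb⟩ := Metric.eventually_nhds_iff.1 (hQ.and hN)
  set η : ℝ := min (ε / 2) (1 / 2) with hη
  have η0 : 0 < η := lt_min (by linarith) (by norm_num)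
  have η1 : η ≤ ε / 2 := min_le_left _ _
  have η2 : η ≤ 1 / 2 := min_le_right _ _
  have close : ∀ x : St, dist x x0 < η → ∀ c : Fin 7 → ℝ, ‖c‖ ≤ η → ∀ t ∈ Icc (0 : ℝ) 1,
      dist ((x.1, x.2 + t • c) : St) x0 < ε := by
    intro x hx c hc t ht
    have h1 : dist ((x.1, x.2 + t • c) : St) x ≤ η := by
      rw [Prod.dist_eq]
      simp only [dist_self, dist_self_add_left, norm_smul, Real.norm_eq_abs]
      refine max_le η0.le ?_
      have : |t| ≤ 1 := abs_le.2 ⟨by linarith [ht.1], ht.2⟩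
      nlinarith [norm_nonneg c, abs_nonneg t]
    have := dist_triangle ((x.1, x.2 + t • c) : St) x x0
    linarith
  have hK : IsCompact {c : Fin 7 → ℝ | c 0 = 0 ∧ ‖c‖ = η} := by
    refine (isCompact_sphere (0 : Fin 7 → ℝ) η).of_isClosed_subset ?_ ?_
    · exact (isClosed_eq (by fun_prop) continuous_const).inter
        (isClosed_eq (by fun_prop) continuous_const)
    · intro c hc; simpa using hc.2
  have hT : ∀ᶠ x in 𝓝 x0, ∀ c ∈ {c : Fin 7 → ℝ | c 0 = 0 ∧ ‖c‖ = η},
      ∃ t ∈ Icc (0 : ℝ) 1, ¬ Cl (dv (x.1, x.2 + t • c)) := by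
    apply hK.eventually_forall_of_forall_eventually
      (P := fun (x : St) c => ∃ t ∈ Icc (0 : ℝ) 1, ¬ Cl (dv (x.1, x.2 + t • c)))
    rintro c ⟨hc0, hc⟩
    have : ∃ t ∈ Icc (0 : ℝ) 1, ∃ k, cl (dv (x0.1, x0.2 + t • c)) k < 0 := by
      by_contra hcon
      push Not at hcon
      have : c = 0 := by
        apply no_segment hc0 (by linarith)
        intro t ht
        have h1 := (hb (close x0 (by simpa using η0) c hc.le t ht)).2
        have h2 := hcon t ht
        simp only [x0, zero_add] at h1 h2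
        exact ⟨h1, h2⟩
      rw [this, norm_zero] at hc
      linarith
    obtain ⟨t, ht, k, hk⟩ := this
    have hcont : Continuous fun z : St × (Fin 7 → ℝ) => cl (dv (z.1.1, z.1.2 + t • z.2)) k :=
      (continuous_cl k).comp (by fun_prop)
    have := hcont.continuousAt (x := (x0, c)) |>.eventually (gt_mem_nhds hk)
    filter_upwards [this] with z hz
    exact ⟨t, ht, fun h => absurd (h k) (not_le.2 hz)⟩
  filter_upwards [hT, Metric.ball_mem_nhds x0 η0] with x hx hxb c hc0 hi hf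
  have hxb' : dist x x0 < η := hxb
  have hc : ‖c‖ ≤ η := by
    by_contra hcon
    push Not at hcon
    have c0 : 0 < ‖c‖ := η0.trans hcon
    have r0 : 0 ≤ η / ‖c‖ := div_nonneg η0.le c0.le
    have r1 : η / ‖c‖ ≤ 1 := (div_le_one c0).2 hcon.le
    have hn' : ‖(η / ‖c‖) • c‖ = η := by
      rw [norm_smul, Real.norm_eq_abs, abs_of_nonneg r0]; field_simp
    obtain ⟨t, ht, hcl⟩ := hx ((η / ‖c‖) • c) ⟨by simp [hc0], hn'⟩
    have hn : ∀ t ∈ Icc (0 : ℝ) 1, Near (dv (x.1, x.2 + t • (η / ‖c‖) • c)) :=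
      fun t ht => (hb (close x hxb' _ hn'.le t ht)).2
    refine hcl (cl_of_inv (hn t ht) (inv_along hi hn ?_ t ht))
    intro s hs
    rw [smul_smul]
    exact hf _ ⟨mul_nonneg hs.1 r0, mul_le_one₀ hs.2 r0 r1⟩
  have hn : ∀ t ∈ Icc (0 : ℝ) 1, Near (dv (x.1, x.2 + t • c)) :=
    fun t ht => (hb (close x hxb' _ hc t ht)).2
  have h1 := (hb (close x hxb' _ hc 1 (by simp))).1
  have h2 := inv_along hi hn hf 1 (by simp)
  simp only [one_smul] at h1 h2
  exact ⟨h1, h2⟩

end Pool.Agent.MP_7e0f10_lc
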