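import Mathlib

/-!
Open planar polygonal chains, simple configurations, and motions that are piecewise linear in
angle space.  The plane is `ℂ`; a chain with `n` links has joints `p 0, …, p n`.
-/

namespace Pool.Agent.MP_7e0f10_lc

variable {n : ℕ}

/-- Link number `i` of the configuration `p`: the closed segment from joint `i` to joint `i+1`. -/
def link (p : Fin (n + 1) → ℂ) (i : Fin n) : Set ℂ :=
  segment ℝ (p i.castSucc) (p i.succ)

/-- The length of link number `i`. -/
noncomputable def linkLength (p : Fin (n + 1) → ℂ) (i : Fin n) : ℝ :=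
  dist (p i.castSucc) (p i.succ)

/-- Simple configuration: links have positive length, consecutive links meet only at their shared
joint, and all other pairs of links are disjoint. -/
def IsSimple (p : Fin (n + 1) → ℂ) : Prop :=
  (∀ i, 0 < linkLength p i) ∧
  (∀ i j : Fin n, i.val + 1 = j.val → link p i ∩ link p j ⊆ {p i.succ}) ∧
  (∀ i j : Fin n, i.val + 1 < j.val → Disjoint (link p i) (link p j))

/-- For consecutive links `i` and `j = i+1`, the oriented angle (in `ℝ / 2πℤ`) at their shared
joint `i+1`, from the ray towards joint `i` to the ray towards joint `i+2`: the argument of the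
quotient of the two link vectors that emanate from the joint. -/
noncomputable def jointAngle (p : Fin (n + 1) → ℂ) (i j : Fin n) : Real.Angle :=
  (Complex.arg ((p j.succ - p i.succ) / (p i.castSucc - p i.succ)) : ℝ)

/-- A move from `p` to `q`: a continuous path of simple configurations, with constant link lengths,
along which every joint angle is an affine function of time. -/
def IsMove (p q : Fin (n + 1) → ℂ) : Prop :=
  ∃ γ : ℝ → Fin (n + 1) → ℂ, ContinuousOn γ (Set.Icc 0 1) ∧ γ 0 = p ∧ γ 1 = q ∧
    (∀ t ∈ Set.Icc (0 : ℝ) 1, IsSimple (γ t) ∧ ∀ i, linkLength (γ t) i = linkLength p i) ∧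
    (∀ i j : Fin n, i.val + 1 = j.val → ∃ a b : ℝ, ∀ t ∈ Set.Icc (0 : ℝ) 1,
      jointAngle (γ t) i j = ((a + b * t : ℝ) : Real.Angle))

/-- Straightened configuration: every joint angle equals `π`. -/
def IsStraight (p : Fin (n + 1) → ℂ) : Prop :=
  ∀ i j : Fin n, i.val + 1 = j.val → jointAngle p i j = ((Real.pi : ℝ) : Real.Angle)

/-- `p` is straightened by a concatenation of exactly `m` moves. -/
def StraightensIn (p : Fin (n + 1) → ℂ) (m : ℕ) : Prop :=
  ∃ c : ℕ → Fin (n + 1) → ℂ, c 0 = p ∧ (∀ k < m, IsMove (c k) (c (k + 1))) ∧ IsStraight (c m)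

end Pool.Agent.MP_7e0f10_lc
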