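import Mathlib

/-! Elementary plane geometry used in the locking argument. -/

namespace Pool.Agent.MP_7e0f10_lc

/-- Cross product of two plane vectors. -/
def cross (u v : ℂ) : ℝ := u.re * v.im - u.im * v.re

/-- Dot product of two plane vectors. -/
def dot (u v : ℂ) : ℝ := u.re * v.re + u.im * v.im

lemma continuous_cross : Continuous fun x : ℂ × ℂ => cross x.1 x.2 := by
  unfold cross; fun_prop

lemma continuous_dot : Continuous fun x : ℂ × ℂ => dot x.1 x.2 := by
  unfold dot; fun_prop

@[fun_prop]
lemma Continuous.cross' {X : Type*} [TopologicalSpace X] {f g : X → ℂ} (hf : Continuous f)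
    (hg : Continuous g) : Continuous fun x => cross (f x) (g x) :=
  continuous_cross.comp (hf.prodMk hg)

@[fun_prop]
lemma Continuous.dot' {X : Type*} [TopologicalSpace X] {f g : X → ℂ} (hf : Continuous f)
    (hg : Continuous g) : Continuous fun x => dot (f x) (g x) :=
  continuous_dot.comp (hf.prodMk hg)

/-- `τ` is not on the segment from `0` to `a`. -/
def Off (τ a : ℂ) : Prop := ∀ s : ℝ, 0 ≤ s → s ≤ 1 → τ ≠ (s : ℂ) * a

lemma Off.of_mul {w τ a : ℂ} (h : Off (w * τ) (w * a)) : Off τ a := by
  intro s h0 h1 e
  apply h s h0 h1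
  rw [e]; ring

lemma off_of_not_mem {z x y : ℂ} (h : z ∉ segment ℝ x y) : Off (z - x) (y - x) := by
  intro s h0 h1 e
  apply h
  rw [segment_eq_image']
  refine ⟨s, ⟨h0, h1⟩, ?_⟩
  simp only [Complex.real_smul]
  rw [← e]; ring

lemma not_off {τ a : ℂ} (ha : 0 < dot a a) (hc : cross a τ = 0) (h0 : 0 ≤ dot a τ)
    (h1 : dot a τ ≤ dot a a) : ¬ Off τ a := by
  intro h
  apply h (dot a τ / dot a a) (div_nonneg h0 ha.le) ((div_le_one ha).2 h1)
  have ha' : dot a a ≠ 0 := ha.ne'
  apply Complex.ext
  · simp only [Complex.mul_re, Complex.ofReal_re, Complex.ofReal_im, zero_mul, sub_zero]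
    field_simp
    unfold dot cross at *
    linear_combination (-a.im) * hc
  · simp only [Complex.mul_im, Complex.ofReal_re, Complex.ofReal_im, zero_mul, add_zero]
    field_simp
    unfold dot cross at *
    linear_combination (a.re) * hc

lemma dot_self_pos_of_cross_left {a b : ℂ} (h : 0 < cross a b) : 0 < dot a a := by
  unfold dot cross at *
  by_contra hn
  have h1 : a.re = 0 := by nlinarith [sq_nonneg a.re, sq_nonneg a.im]
  have h2 : a.im = 0 := by nlinarith [sq_nonneg a.re, sq_nonneg a.im]
  rw [h1, h2] at h; simp at h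

lemma dot_self_pos_of_cross_right {a b : ℂ} (h : 0 < cross a b) : 0 < dot b b := by
  unfold dot cross at *
  by_contra hn
  have h1 : b.re = 0 := by nlinarith [sq_nonneg b.re, sq_nonneg b.im]
  have h2 : b.im = 0 := by nlinarith [sq_nonneg b.re, sq_nonneg b.im]
  rw [h1, h2] at h; simp at h

/-- A point weakly inside a wedge, near the hinge and off both arms, is strictly inside. -/
lemma wedge_strict {a b τ : ℂ} (hab : 0 < cross a b) (h1 : 0 ≤ cross a τ) (h2 : 0 ≤ cross τ b)
    (ha : dot a τ ≤ dot a a) (hb : dot b τ ≤ dot b b) (oa : Off τ a) (ob : Off τ b) :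
    0 < cross a τ ∧ 0 < cross τ b := by
  have haa := dot_self_pos_of_cross_left hab
  have hbb := dot_self_pos_of_cross_right hab
  constructor
  · rcases h1.lt_or_eq with h | h
    · exact h
    · exfalso
      refine not_off haa h.symm ?_ ha oa
      have key : dot a τ * cross a b = cross τ b * dot a a + cross a τ * dot a b := by
        unfold dot cross; ring
      rw [← h] at key
      have : 0 ≤ dot a τ * cross a b := by
        rw [key, zero_mul, add_zero]; exact mul_nonneg h2 haa.le
      exact nonneg_of_mul_nonneg_left this hab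
  · rcases h2.lt_or_eq with h | h
    · exact h
    · exfalso
      have h' : cross b τ = 0 := by unfold cross at *; linarith
      refine not_off hbb h' ?_ hb ob
      have key : dot b τ * cross a b = cross a τ * dot b b + cross τ b * dot a b := by
        unfold dot cross; ring
      rw [← h] at key
      have : 0 ≤ dot b τ * cross a b := by
        rw [key, zero_mul, add_zero]; exact mul_nonneg h1 hbb.le
      exact nonneg_of_mul_nonneg_left this hab

/-- A point of an acute wedge makes an acute angle with the first arm. -/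
lemma wedge_cone_left {a b τ : ℂ} (hab : 0 < cross a b) (h1 : 0 ≤ cross a τ) (h2 : 0 ≤ cross τ b)
    (hk : cross a b ≤ 2 * dot a b) : cross a τ ≤ 2 * dot a τ := by
  have haa := dot_self_pos_of_cross_left hab
  have key : dot a τ * cross a b = cross τ b * dot a a + cross a τ * dot a b := by
    unfold dot cross; ring
  have : cross a τ * cross a b ≤ 2 * dot a τ * cross a b := by
    have := mul_le_mul_of_nonneg_left hk h1
    have := mul_nonneg h2 haa.le
    nlinarith
  exact le_of_mul_le_mul_right this hab

/-- A point of an acute wedge makes an acute angle with the second arm. -/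
lemma wedge_cone_right {a b τ : ℂ} (hab : 0 < cross a b) (h1 : 0 ≤ cross a τ) (h2 : 0 ≤ cross τ b)
    (hk : cross a b ≤ 2 * dot a b) : cross τ b ≤ 2 * dot b τ := by
  have hbb := dot_self_pos_of_cross_right hab
  have key : dot b τ * cross a b = cross a τ * dot b b + cross τ b * dot a b := by
    unfold dot cross; ring
  have : cross τ b * cross a b ≤ 2 * dot b τ * cross a b := by
    have := mul_le_mul_of_nonneg_left hk h2
    have := mul_nonneg h1 hbb.le
    nlinarith
  exact le_of_mul_le_mul_right this hab

/-- If `a - z` is as long as `a` (of squared length 4) and `z` is short and makes an acute angle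
with `a`, then `dot a z = 0`. -/
lemma dot_eq_zero_of_norm {a z : ℂ} (ha : dot a a = 4) (hz : dot (a - z) (a - z) = 4)
    (h0 : 0 ≤ dot a z) (h1 : dot a z < 1) (hc : |cross a z| ≤ 2 * dot a z) : dot a z = 0 := by
  have e1 : 2 * dot a z = dot z z := by
    unfold dot at *
    simp only [Complex.sub_re, Complex.sub_im] at hz
    linarith
  have e2 : dot a a * dot z z = dot a z ^ 2 + cross a z ^ 2 := by unfold dot cross; ring
  have e3 : cross a z ^ 2 ≤ (2 * dot a z) ^ 2 := by
    rw [← sq_abs]; exact pow_le_pow_left₀ (abs_nonneg _) hc 2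
  rw [ha, ← e1] at e2
  nlinarith

lemma eq_zero_of_dot_cross {a z : ℂ} (ha : dot a a = 4) (h1 : dot a z = 0) (h2 : cross a z = 0) :
    z = 0 := by
  have e2 : dot a a * dot z z = dot a z ^ 2 + cross a z ^ 2 := by unfold dot cross; ring
  rw [ha, h1, h2] at e2
  unfold dot at e2
  apply Complex.ext
  · simp only [Complex.zero_re]; nlinarith [sq_nonneg z.re, sq_nonneg z.im]
  · simp only [Complex.zero_im]; nlinarith [sq_nonneg z.re, sq_nonneg z.im]

/-- Both ends of `c d` strictly on one side of the line `a b`: the segments are disjoint. -/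
lemma disjoint_of_side {a b c d : ℂ} (h : 0 < cross (b - a) (c - a) * cross (b - a) (d - a)) :
    Disjoint (segment ℝ a b) (segment ℝ c d) := by
  rw [Set.disjoint_left]
  intro z hz1 hz2
  rw [segment_eq_image'] at hz1 hz2
  obtain ⟨s, -, rfl⟩ := hz1
  obtain ⟨t, ⟨ht0, ht1⟩, e⟩ := hz2
  have hre := congrArg Complex.re e
  have him := congrArg Complex.im e
  simp only [Complex.real_smul, Complex.add_re, Complex.mul_re, Complex.ofReal_re, Complex.sub_re,
    Complex.ofReal_im, Complex.sub_im, zero_mul, sub_zero, Complex.add_im, Complex.mul_im,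
    add_zero] at hre him
  have key : (1 - t) * cross (b - a) (c - a) + t * cross (b - a) (d - a) = 0 := by
    unfold cross
    simp only [Complex.sub_re, Complex.sub_im]
    linear_combination (b.re - a.re) * him - (b.im - a.im) * hre
  set X := cross (b - a) (c - a)
  set Y := cross (b - a) (d - a)
  rcases pos_and_pos_or_neg_and_neg_of_mul_pos h with ⟨hx, hy⟩ | ⟨hx, hy⟩
  · rcases ht0.lt_or_eq with h0 | h0
    · nlinarith [mul_nonneg (sub_nonneg.2 ht1) hx.le, mul_pos h0 hy]
    · rw [← h0] at key; linarith
  · rcases ht0.lt_or_eq with h0 | h0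
    · nlinarith [mul_nonneg (sub_nonneg.2 ht1) (neg_pos.2 hx).le, mul_pos h0 (neg_pos.2 hy)]
    · rw [← h0] at key; linarith

/-- Two segments with a common end that are not parallel meet only there. -/
lemma inter_subset_of_cross {a b c : ℂ} (h : cross (b - a) (c - a) ≠ 0) :
    segment ℝ a b ∩ segment ℝ b c ⊆ {b} := by
  rintro z ⟨hz1, hz2⟩
  rw [segment_eq_image'] at hz1 hz2
  obtain ⟨s, -, e1⟩ := hz1
  obtain ⟨t, -, e⟩ := hz2
  rw [← e1] at e
  have hre := congrArg Complex.re e
  have him := congrArg Complex.im e
  simp only [Complex.real_smul, Complex.add_re, Complex.mul_re, Complex.ofReal_re, Complex.sub_re,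
    Complex.ofReal_im, Complex.sub_im, zero_mul, sub_zero, Complex.add_im, Complex.mul_im,
    add_zero] at hre him
  have key : t * cross (b - a) (c - a) = 0 := by
    unfold cross
    simp only [Complex.sub_re, Complex.sub_im]
    linear_combination (b.re - a.re) * him - (b.im - a.im) * hre
  have ht : t = 0 := by
    rcases mul_eq_zero.1 key with h' | h'
    · exact h'
    · exact absurd h' h
  rw [Set.mem_singleton_iff, ← e1, ← e, ht]
  simp

end Pool.Agent.MP_7e0f10_lc
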