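import Pool.Agent.MP_7e0f10_lc.Geom

/-! The interlocked seven-link chain, described by its link vectors. -/

namespace Pool.Agent.MP_7e0f10_lc

open Filter Topology Set

/-- Link vectors of the limiting self-touching configuration. -/
noncomputable def D : Fin 7 → ℂ :=
  ![-2, 2, -1 - Complex.I, 3 + 2 * Complex.I, -4 - Complex.I, 2, -1]

/-- Joint 1 seen from joint 5. -/
def t5 (d : Fin 7 → ℂ) : ℂ := -(d 1 + d 2 + d 3 + d 4)
/-- Joint 0 seen from joint 6. -/
def t6 (d : Fin 7 → ℂ) : ℂ := -(d 0 + d 1 + d 2 + d 3 + d 4 + d 5)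
/-- Joint 6 seen from joint 2. -/
def t2 (d : Fin 7 → ℂ) : ℂ := d 2 + d 3 + d 4 + d 5
/-- Joint 7 seen from joint 1. -/
def t1 (d : Fin 7 → ℂ) : ℂ := d 1 + d 2 + d 3 + d 4 + d 5 + d 6

/-- Consequences of simplicity. -/
def Free (d : Fin 7 → ℂ) : Prop :=
  Off (d 6) (-d 5) ∧ Off (t6 d) (d 6) ∧ Off (t6 d) (-d 5) ∧ Off (t5 d) (d 5) ∧
    Off (t5 d) (-d 4) ∧ Off (t2 d) (-d 1) ∧ Off (t2 d) (d 2) ∧ Off (t1 d) (d 1)

lemma Free.of_mul {w : ℂ} {d : Fin 7 → ℂ} (h : Free fun j => w * d j) : Free d := by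
  obtain ⟨h1, h2, h3, h4, h5, h6, h7, h8⟩ := h
  refine ⟨Off.of_mul (w := w) ?_, Off.of_mul (w := w) ?_, Off.of_mul (w := w) ?_,
    Off.of_mul (w := w) ?_, Off.of_mul (w := w) ?_, Off.of_mul (w := w) ?_,
    Off.of_mul (w := w) ?_, Off.of_mul (w := w) ?_⟩
  · convert h1 using 1; ring
  · convert h2 using 1; unfold t6; ring
  · convert h3 using 1
    · unfold t6; ring
    · ring
  · convert h4 using 1; unfold t5; ring
  · convert h5 using 1
    · unfold t5; ring
    · ring
  · convert h6 using 1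
    · unfold t2; ring
    · ring
  · convert h7 using 1; unfold t2; ring
  · convert h8 using 1; unfold t1; ring

/-- The eight signed quantities that stay positive near the limiting configuration. -/
def g (d : Fin 7 → ℂ) : Fin 8 → ℝ :=
  ![cross (d 6) (-d 5), cross (d 6) (t6 d), cross (t6 d) (-d 5), cross (d 5) (t5 d),
    cross (t5 d) (-d 4), cross (-d 1) (t2 d), cross (t2 d) (d 2), cross (t1 d) (d 1)]

/-- The invariant. -/
def Inv (d : Fin 7 → ℂ) : Prop := ∀ k, 0 < g d k

/-- Quantities that are positive at the limiting configuration. -/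
def nr (d : Fin 7 → ℂ) : Fin 17 → ℝ :=
  ![dot (-d 5) (d 6), dot (-d 5) (-d 5) - dot (-d 5) (d 6),
    dot (d 1) (t1 d), dot (d 1) (d 1) - dot (d 1) (t1 d),
    dot (d 6) (d 6) - dot (d 6) (t6 d), dot (-d 5) (-d 5) - dot (-d 5) (t6 d),
    dot (d 5) (d 5) - dot (d 5) (t5 d), dot (-d 4) (-d 4) - dot (-d 4) (t5 d),
    dot (-d 1) (-d 1) - dot (-d 1) (t2 d), dot (d 2) (d 2) - dot (d 2) (t2 d),
    cross (d 5) (-d 4), cross (-d 1) (d 2),
    2 * dot (d 6) (-d 5) - cross (d 6) (-d 5), 2 * dot (d 5) (-d 4) - cross (d 5) (-d 4),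
    2 * dot (-d 1) (d 2) - cross (-d 1) (d 2),
    1 - dot (d 5) (t5 d - t6 d), 1 - dot (-d 1) (t2 d)]

/-- Open conditions that hold near the limiting configuration. -/
def Near (d : Fin 7 → ℂ) : Prop := ∀ k, 0 < nr d k

lemma continuous_t5 : Continuous t5 := by unfold t5; fun_prop
lemma continuous_t6 : Continuous t6 := by unfold t6; fun_prop
lemma continuous_t2 : Continuous t2 := by unfold t2; fun_prop
lemma continuous_t1 : Continuous t1 := by unfold t1; fun_prop

attribute [fun_prop] continuous_t5 continuous_t6 continuous_t2 continuous_t1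

lemma continuous_g (k : Fin 8) : Continuous fun d => g d k := by
  fin_cases k <;> simp only [g, Fin.zero_eta, Fin.mk_one, Fin.reduceFinMk, Matrix.cons_val] <;>
    fun_prop

lemma continuous_nr (k : Fin 17) : Continuous fun d => nr d k := by
  fin_cases k <;> simp only [nr, Fin.zero_eta, Fin.mk_one, Fin.reduceFinMk, Matrix.cons_val] <;>
    fun_prop

lemma near_D : Near D := by
  intro k
  fin_cases k <;> simp [nr, D, t1, t2, t5, t6, dot, cross] <;> norm_num

lemma eventually_near : ∀ᶠ d in 𝓝 D, Near d := by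
  unfold Near
  rw [eventually_all]
  intro k
  exact (continuous_nr k).continuousAt.eventually (lt_mem_nhds (near_D k))

/-- For free configurations near the limit, weak inequalities are strict. -/
lemma inv_of_nonneg {d : Fin 7 → ℂ} (hn : Near d) (hf : Free d) (h : ∀ k, 0 ≤ g d k) : Inv d := by
  obtain ⟨f1, f2, f3, f4, f5, f6, f7, f8⟩ := hf
  have n0 := hn 0; have n1 := hn 1; have n2 := hn 2; have n3 := hn 3; have n4 := hn 4
  have n5 := hn 5; have n6 := hn 6; have n7 := hn 7; have n8 := hn 8; have n9 := hn 9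
  have n10 := hn 10; have n11 := hn 11
  have g0 := h 0; have g1 := h 1; have g2 := h 2; have g3 := h 3; have g4 := h 4
  have g5 := h 5; have g6 := h 6; have g7 := h 7
  simp only [nr, g, Matrix.cons_val] at n0 n1 n2 n3 n4 n5 n6 n7 n8 n9 n10 n11 g0 g1 g2 g3 g4 g5 g6 g7
  have s0 : 0 < cross (d 6) (-d 5) := by
    rcases g0.lt_or_eq with h' | h'
    · exact h'
    · exfalso
      refine not_off (a := -d 5) (by linarith) ?_ n0.le (by linarith) f1
      unfold cross at *; linarith
  have s7 : 0 < cross (t1 d) (d 1) := by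
    rcases g7.lt_or_eq with h' | h'
    · exact h'
    · exfalso
      refine not_off (a := d 1) (by linarith) ?_ n2.le (by linarith) f8
      unfold cross at *; linarith
  obtain ⟨s1, s2⟩ := wedge_strict s0 g1 g2 (by linarith) (by linarith) f2 f3
  obtain ⟨s3, s4⟩ := wedge_strict n10 g3 g4 (by linarith) (by linarith) f4 f5
  obtain ⟨s5, s6⟩ := wedge_strict n11 g5 g6 (by linarith) (by linarith) f6 f7
  intro k
  fin_cases k <;> simp only [g, Fin.zero_eta, Fin.mk_one, Fin.reduceFinMk, Matrix.cons_val] <;>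
    assumption

/-- Quantities that are non-negative on the closure of the invariant region. -/
def cl (d : Fin 7 → ℂ) : Fin 8 → ℝ :=
  ![cross (t6 d) (-d 5), 2 * dot (-d 5) (t6 d) - cross (t6 d) (-d 5),
    cross (d 5) (t5 d), 2 * dot (d 5) (t5 d) - cross (d 5) (t5 d),
    cross (-d 1) (t2 d), 2 * dot (-d 1) (t2 d) - cross (-d 1) (t2 d),
    cross (d 6) (-d 5), cross (t1 d) (d 1)]

/-- Closed conditions. -/
def Cl (d : Fin 7 → ℂ) : Prop := ∀ k, 0 ≤ cl d k

lemma continuous_cl (k : Fin 8) : Continuous fun d => cl d k := by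
  fin_cases k <;> simp only [cl, Fin.zero_eta, Fin.mk_one, Fin.reduceFinMk, Matrix.cons_val] <;>
    fun_prop

lemma cl_of_inv {d : Fin 7 → ℂ} (hn : Near d) (h : Inv d) : Cl d := by
  have n10 := hn 10; have n11 := hn 11; have n12 := hn 12; have n13 := hn 13; have n14 := hn 14
  have g0 := h 0; have g1 := h 1; have g2 := h 2; have g3 := h 3; have g4 := h 4
  have g5 := h 5; have g6 := h 6; have g7 := h 7
  simp only [nr, g, Matrix.cons_val] at n10 n11 n12 n13 n14 g0 g1 g2 g3 g4 g5 g6 g7
  have c1 := wedge_cone_right g0 g1.le g2.le (by linarith)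
  have c3 := wedge_cone_left n10 g3.le g4.le (by linarith)
  have c5 := wedge_cone_left n11 g5.le g6.le (by linarith)
  intro k
  fin_cases k <;> simp only [cl, Fin.zero_eta, Fin.mk_one, Fin.reduceFinMk, Matrix.cons_val] <;>
    linarith

/-- With the limiting lengths, the closed conditions force the three contacts. -/
lemma locked {d : Fin 7 → ℂ} (hn : Near d) (h : Cl d) (l0 : dot (d 0) (d 0) = 4)
    (l1 : dot (d 1) (d 1) = 4) (l5 : dot (d 5) (d 5) = 4) :
    d 5 = -d 0 ∧ d 1 = d 5 ∧ d 1 + d 2 + d 3 + d 4 = 0 ∧ cross (d 6) (d 5) = 0 := by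
  have n15 := hn 15; have n16 := hn 16
  have c0 := h 0; have c1 := h 1; have c2 := h 2; have c3 := h 3; have c4 := h 4
  have c5 := h 5; have c6 := h 6; have c7 := h 7
  simp only [nr, cl, Matrix.cons_val] at n15 n16 c0 c1 c2 c3 c4 c5 c6 c7
  have e1 : dot (d 5) (t5 d - t6 d) = dot (d 5) (t5 d) + dot (-d 5) (t6 d) := by
    unfold dot; simp; ring
  have e2 : cross (d 5) (t5 d - t6 d) = cross (d 5) (t5 d) - cross (t6 d) (-d 5) := by
    unfold cross; simp; ring
  have e3 : d 5 - (t5 d - t6 d) = -d 0 := by unfold t5 t6; ring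
  have z1 : dot (d 5) (t5 d - t6 d) = 0 := by
    refine dot_eq_zero_of_norm l5 ?_ (by linarith) (by linarith) ?_
    · rw [e3, ← l0]; unfold dot; simp
    · rw [abs_le]; constructor <;> linarith
  have z5 : t5 d = 0 := eq_zero_of_dot_cross l5 (by linarith) (by linarith)
  have l5' : dot (-d 5) (-d 5) = 4 := by rw [← l5]; unfold dot; simp
  have z6 : t6 d = 0 := by
    refine eq_zero_of_dot_cross l5' (by linarith) ?_
    have : cross (t6 d) (-d 5) = 0 := by linarith
    unfold cross at *; linarith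
  have hS : d 1 + d 2 + d 3 + d 4 = 0 := by unfold t5 at z5; exact neg_eq_zero.1 z5
  have l1' : dot (-d 1) (-d 1) = 4 := by rw [← l1]; unfold dot; simp
  have e4 : -d 1 - t2 d = -d 5 := by unfold t2; linear_combination (-1 : ℂ) * hS
  have z2' : dot (-d 1) (t2 d) = 0 := by
    refine dot_eq_zero_of_norm l1' ?_ (by linarith) (by linarith) ?_
    · rw [e4, l5']
    · rw [abs_le]; constructor <;> linarith
  have z2 : t2 d = 0 := eq_zero_of_dot_cross l1' z2' (by linarith)
  have h15 : d 1 = d 5 := by rw [z2] at e4; linear_combination (-1 : ℂ) * e4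
  refine ⟨?_, h15, hS, ?_⟩
  · rw [z5, z6] at e3; linear_combination e3
  · have : t1 d = d 5 + d 6 := by unfold t1; linear_combination hS
    rw [this, h15] at c7
    unfold cross at *
    simp only [Complex.add_re, Complex.add_im, Complex.neg_re, Complex.neg_im] at c6 c7
    linarith

end Pool.Agent.MP_7e0f10_lc
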