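import Pool.Agent.MP_7e0f10_lc.Moves

/-! The tight simple configurations and the main theorem. -/

set_option linter.unusedSectionVars false

namespace Pool.Agent.MP_7e0f10_lc

open Filter Topology Set

/-- The tight configurations. -/
noncomputable def cfg (e : ℝ) : Fin (7 + 1) → ℂ :=
  ![⟨2 - e, e ^ 2⟩, ⟨8 * e, e⟩, ⟨2 + 8 * e, 4 * e⟩, ⟨1, -1⟩, ⟨4, 1⟩, ⟨0, 0⟩, ⟨2, 0⟩, ⟨1, 2 * e⟩]

section
variable {e : ℝ} (h0 : 0 < e) (h1 : e < 1 / 100)
include h0 h1

lemma cr_0_1_2 : cross (cfg e 1 - cfg e 0) (cfg e 2 - cfg e 0) < 0 := by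
  simp only [cfg, cross, Matrix.cons_val, Complex.sub_re, Complex.sub_im]
  nlinarith [mul_pos h0 h0, mul_pos h0 (mul_pos h0 h0), mul_lt_mul_of_pos_left h1 h0,
    mul_lt_mul_of_pos_left h1 (mul_pos h0 h0)]

lemma cr_2_3_0 : cross (cfg e 3 - cfg e 2) (cfg e 0 - cfg e 2) < 0 := by
  simp only [cfg, cross, Matrix.cons_val, Complex.sub_re, Complex.sub_im]
  nlinarith [mul_pos h0 h0, mul_pos h0 (mul_pos h0 h0), mul_lt_mul_of_pos_left h1 h0,
    mul_lt_mul_of_pos_left h1 (mul_pos h0 h0)]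

lemma cr_2_3_1 : cross (cfg e 3 - cfg e 2) (cfg e 1 - cfg e 2) < 0 := by
  simp only [cfg, cross, Matrix.cons_val, Complex.sub_re, Complex.sub_im]
  nlinarith [mul_pos h0 h0, mul_pos h0 (mul_pos h0 h0), mul_lt_mul_of_pos_left h1 h0,
    mul_lt_mul_of_pos_left h1 (mul_pos h0 h0)]

lemma cr_3_4_0 : 0 < cross (cfg e 4 - cfg e 3) (cfg e 0 - cfg e 3) := by
  simp only [cfg, cross, Matrix.cons_val, Complex.sub_re, Complex.sub_im]
  nlinarith [mul_pos h0 h0, mul_pos h0 (mul_pos h0 h0), mul_lt_mul_of_pos_left h1 h0,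
    mul_lt_mul_of_pos_left h1 (mul_pos h0 h0)]

lemma cr_3_4_1 : 0 < cross (cfg e 4 - cfg e 3) (cfg e 1 - cfg e 3) := by
  simp only [cfg, cross, Matrix.cons_val, Complex.sub_re, Complex.sub_im]
  nlinarith [mul_pos h0 h0, mul_pos h0 (mul_pos h0 h0), mul_lt_mul_of_pos_left h1 h0,
    mul_lt_mul_of_pos_left h1 (mul_pos h0 h0)]

lemma cr_4_5_0 : 0 < cross (cfg e 5 - cfg e 4) (cfg e 0 - cfg e 4) := by
  simp only [cfg, cross, Matrix.cons_val, Complex.sub_re, Complex.sub_im]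
  nlinarith [mul_pos h0 h0, mul_pos h0 (mul_pos h0 h0), mul_lt_mul_of_pos_left h1 h0,
    mul_lt_mul_of_pos_left h1 (mul_pos h0 h0)]

lemma cr_4_5_1 : 0 < cross (cfg e 5 - cfg e 4) (cfg e 1 - cfg e 4) := by
  simp only [cfg, cross, Matrix.cons_val, Complex.sub_re, Complex.sub_im]
  nlinarith [mul_pos h0 h0, mul_pos h0 (mul_pos h0 h0), mul_lt_mul_of_pos_left h1 h0,
    mul_lt_mul_of_pos_left h1 (mul_pos h0 h0)]

lemma cr_0_1_5 : 0 < cross (cfg e 1 - cfg e 0) (cfg e 5 - cfg e 0) := by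
  simp only [cfg, cross, Matrix.cons_val, Complex.sub_re, Complex.sub_im]
  nlinarith [mul_pos h0 h0, mul_pos h0 (mul_pos h0 h0), mul_lt_mul_of_pos_left h1 h0,
    mul_lt_mul_of_pos_left h1 (mul_pos h0 h0)]

lemma cr_0_1_6 : 0 < cross (cfg e 1 - cfg e 0) (cfg e 6 - cfg e 0) := by
  simp only [cfg, cross, Matrix.cons_val, Complex.sub_re, Complex.sub_im]
  nlinarith [mul_pos h0 h0, mul_pos h0 (mul_pos h0 h0), mul_lt_mul_of_pos_left h1 h0,
    mul_lt_mul_of_pos_left h1 (mul_pos h0 h0)]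

lemma cr_6_7_0 : 0 < cross (cfg e 7 - cfg e 6) (cfg e 0 - cfg e 6) := by
  simp only [cfg, cross, Matrix.cons_val, Complex.sub_re, Complex.sub_im]
  nlinarith [mul_pos h0 h0, mul_pos h0 (mul_pos h0 h0), mul_lt_mul_of_pos_left h1 h0,
    mul_lt_mul_of_pos_left h1 (mul_pos h0 h0)]

lemma cr_6_7_1 : 0 < cross (cfg e 7 - cfg e 6) (cfg e 1 - cfg e 6) := by
  simp only [cfg, cross, Matrix.cons_val, Complex.sub_re, Complex.sub_im]
  nlinarith [mul_pos h0 h0, mul_pos h0 (mul_pos h0 h0), mul_lt_mul_of_pos_left h1 h0,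
    mul_lt_mul_of_pos_left h1 (mul_pos h0 h0)]

lemma cr_1_2_3 : cross (cfg e 2 - cfg e 1) (cfg e 3 - cfg e 1) < 0 := by
  simp only [cfg, cross, Matrix.cons_val, Complex.sub_re, Complex.sub_im]
  nlinarith [mul_pos h0 h0, mul_pos h0 (mul_pos h0 h0), mul_lt_mul_of_pos_left h1 h0,
    mul_lt_mul_of_pos_left h1 (mul_pos h0 h0)]

lemma cr_3_4_2 : 0 < cross (cfg e 4 - cfg e 3) (cfg e 2 - cfg e 3) := by
  simp only [cfg, cross, Matrix.cons_val, Complex.sub_re, Complex.sub_im]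
  nlinarith [mul_pos h0 h0, mul_pos h0 (mul_pos h0 h0), mul_lt_mul_of_pos_left h1 h0,
    mul_lt_mul_of_pos_left h1 (mul_pos h0 h0)]

lemma cr_4_5_2 : 0 < cross (cfg e 5 - cfg e 4) (cfg e 2 - cfg e 4) := by
  simp only [cfg, cross, Matrix.cons_val, Complex.sub_re, Complex.sub_im]
  nlinarith [mul_pos h0 h0, mul_pos h0 (mul_pos h0 h0), mul_lt_mul_of_pos_left h1 h0,
    mul_lt_mul_of_pos_left h1 (mul_pos h0 h0)]

lemma cr_1_2_5 : cross (cfg e 2 - cfg e 1) (cfg e 5 - cfg e 1) < 0 := by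
  simp only [cfg, cross, Matrix.cons_val, Complex.sub_re, Complex.sub_im]
  nlinarith [mul_pos h0 h0, mul_pos h0 (mul_pos h0 h0), mul_lt_mul_of_pos_left h1 h0,
    mul_lt_mul_of_pos_left h1 (mul_pos h0 h0)]

lemma cr_1_2_6 : cross (cfg e 2 - cfg e 1) (cfg e 6 - cfg e 1) < 0 := by
  simp only [cfg, cross, Matrix.cons_val, Complex.sub_re, Complex.sub_im]
  nlinarith [mul_pos h0 h0, mul_pos h0 (mul_pos h0 h0), mul_lt_mul_of_pos_left h1 h0,
    mul_lt_mul_of_pos_left h1 (mul_pos h0 h0)]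

lemma cr_1_2_7 : cross (cfg e 2 - cfg e 1) (cfg e 7 - cfg e 1) < 0 := by
  simp only [cfg, cross, Matrix.cons_val, Complex.sub_re, Complex.sub_im]
  nlinarith [mul_pos h0 h0, mul_pos h0 (mul_pos h0 h0), mul_lt_mul_of_pos_left h1 h0,
    mul_lt_mul_of_pos_left h1 (mul_pos h0 h0)]

lemma cr_2_3_4 : 0 < cross (cfg e 3 - cfg e 2) (cfg e 4 - cfg e 2) := by
  simp only [cfg, cross, Matrix.cons_val, Complex.sub_re, Complex.sub_im]
  nlinarith [mul_pos h0 h0, mul_pos h0 (mul_pos h0 h0), mul_lt_mul_of_pos_left h1 h0,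
    mul_lt_mul_of_pos_left h1 (mul_pos h0 h0)]

lemma cr_4_5_3 : 0 < cross (cfg e 5 - cfg e 4) (cfg e 3 - cfg e 4) := by
  simp only [cfg, cross, Matrix.cons_val, Complex.sub_re, Complex.sub_im]
  nlinarith [mul_pos h0 h0, mul_pos h0 (mul_pos h0 h0), mul_lt_mul_of_pos_left h1 h0,
    mul_lt_mul_of_pos_left h1 (mul_pos h0 h0)]

lemma cr_2_3_5 : cross (cfg e 3 - cfg e 2) (cfg e 5 - cfg e 2) < 0 := by
  simp only [cfg, cross, Matrix.cons_val, Complex.sub_re, Complex.sub_im]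
  nlinarith [mul_pos h0 h0, mul_pos h0 (mul_pos h0 h0), mul_lt_mul_of_pos_left h1 h0,
    mul_lt_mul_of_pos_left h1 (mul_pos h0 h0)]

lemma cr_2_3_6 : cross (cfg e 3 - cfg e 2) (cfg e 6 - cfg e 2) < 0 := by
  simp only [cfg, cross, Matrix.cons_val, Complex.sub_re, Complex.sub_im]
  nlinarith [mul_pos h0 h0, mul_pos h0 (mul_pos h0 h0), mul_lt_mul_of_pos_left h1 h0,
    mul_lt_mul_of_pos_left h1 (mul_pos h0 h0)]

lemma cr_2_3_7 : cross (cfg e 3 - cfg e 2) (cfg e 7 - cfg e 2) < 0 := by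
  simp only [cfg, cross, Matrix.cons_val, Complex.sub_re, Complex.sub_im]
  nlinarith [mul_pos h0 h0, mul_pos h0 (mul_pos h0 h0), mul_lt_mul_of_pos_left h1 h0,
    mul_lt_mul_of_pos_left h1 (mul_pos h0 h0)]

lemma cr_3_4_5 : 0 < cross (cfg e 4 - cfg e 3) (cfg e 5 - cfg e 3) := by
  simp only [cfg, cross, Matrix.cons_val, Complex.sub_re, Complex.sub_im]
  nlinarith [mul_pos h0 h0, mul_pos h0 (mul_pos h0 h0), mul_lt_mul_of_pos_left h1 h0,
    mul_lt_mul_of_pos_left h1 (mul_pos h0 h0)]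

lemma cr_3_4_6 : 0 < cross (cfg e 4 - cfg e 3) (cfg e 6 - cfg e 3) := by
  simp only [cfg, cross, Matrix.cons_val, Complex.sub_re, Complex.sub_im]
  nlinarith [mul_pos h0 h0, mul_pos h0 (mul_pos h0 h0), mul_lt_mul_of_pos_left h1 h0,
    mul_lt_mul_of_pos_left h1 (mul_pos h0 h0)]

lemma cr_3_4_7 : 0 < cross (cfg e 4 - cfg e 3) (cfg e 7 - cfg e 3) := by
  simp only [cfg, cross, Matrix.cons_val, Complex.sub_re, Complex.sub_im]
  nlinarith [mul_pos h0 h0, mul_pos h0 (mul_pos h0 h0), mul_lt_mul_of_pos_left h1 h0,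
    mul_lt_mul_of_pos_left h1 (mul_pos h0 h0)]

lemma cr_4_5_6 : 0 < cross (cfg e 5 - cfg e 4) (cfg e 6 - cfg e 4) := by
  simp only [cfg, cross, Matrix.cons_val, Complex.sub_re, Complex.sub_im]
  nlinarith [mul_pos h0 h0, mul_pos h0 (mul_pos h0 h0), mul_lt_mul_of_pos_left h1 h0,
    mul_lt_mul_of_pos_left h1 (mul_pos h0 h0)]

lemma cr_4_5_7 : 0 < cross (cfg e 5 - cfg e 4) (cfg e 7 - cfg e 4) := by
  simp only [cfg, cross, Matrix.cons_val, Complex.sub_re, Complex.sub_im]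
  nlinarith [mul_pos h0 h0, mul_pos h0 (mul_pos h0 h0), mul_lt_mul_of_pos_left h1 h0,
    mul_lt_mul_of_pos_left h1 (mul_pos h0 h0)]

lemma cr_5_6_7 : 0 < cross (cfg e 6 - cfg e 5) (cfg e 7 - cfg e 5) := by
  simp only [cfg, cross, Matrix.cons_val, Complex.sub_re, Complex.sub_im]
  nlinarith [mul_pos h0 h0, mul_pos h0 (mul_pos h0 h0), mul_lt_mul_of_pos_left h1 h0,
    mul_lt_mul_of_pos_left h1 (mul_pos h0 h0)]

lemma cfg_simple : IsSimple (cfg e) := by
  have adj : ∀ i j : Fin 7, i.val + 1 = j.val →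
      link (cfg e) i ∩ link (cfg e) j ⊆ {cfg e i.succ} := by
    intro i j hij
    fin_cases i <;> fin_cases j <;> simp only [Nat.reduceAdd, OfNat.ofNat_ne_one, Nat.reduceEqDiff, zero_add, one_ne_zero] at hij
    · exact inter_subset_of_cross (cr_0_1_2 h0 h1).ne
    · exact inter_subset_of_cross (cr_1_2_3 h0 h1).ne
    · exact inter_subset_of_cross (cr_2_3_4 h0 h1).ne'
    · exact inter_subset_of_cross (cr_3_4_5 h0 h1).ne'
    · exact inter_subset_of_cross (cr_4_5_6 h0 h1).ne'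
    · exact inter_subset_of_cross (cr_5_6_7 h0 h1).ne'
  refine ⟨?_, adj, ?_⟩
  · intro i
    unfold linkLength
    rw [dist_pos]
    intro h
    have hre := congrArg Complex.re h
    fin_cases i <;> simp [cfg] at hre <;> linarith
  · intro i j hij
    fin_cases i <;> fin_cases j <;> simp only [Nat.reduceAdd, Nat.reduceLT, zero_add, lt_self_iff_false, Nat.not_lt_zero] at hij
    · exact (disjoint_of_side (mul_pos_of_neg_of_neg (cr_2_3_0 h0 h1) (cr_2_3_1 h0 h1))).symm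
    · exact (disjoint_of_side (mul_pos (cr_3_4_0 h0 h1) (cr_3_4_1 h0 h1))).symm
    · exact (disjoint_of_side (mul_pos (cr_4_5_0 h0 h1) (cr_4_5_1 h0 h1))).symm
    · exact (disjoint_of_side (mul_pos (cr_0_1_5 h0 h1) (cr_0_1_6 h0 h1)))
    · exact (disjoint_of_side (mul_pos (cr_6_7_0 h0 h1) (cr_6_7_1 h0 h1))).symm
    · exact (disjoint_of_side (mul_pos (cr_3_4_1 h0 h1) (cr_3_4_2 h0 h1))).symm
    · exact (disjoint_of_side (mul_pos (cr_4_5_1 h0 h1) (cr_4_5_2 h0 h1))).symm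
    · exact (disjoint_of_side (mul_pos_of_neg_of_neg (cr_1_2_5 h0 h1) (cr_1_2_6 h0 h1)))
    · exact (disjoint_of_side (mul_pos_of_neg_of_neg (cr_1_2_6 h0 h1) (cr_1_2_7 h0 h1)))
    · exact (disjoint_of_side (mul_pos (cr_4_5_2 h0 h1) (cr_4_5_3 h0 h1))).symm
    · exact (disjoint_of_side (mul_pos_of_neg_of_neg (cr_2_3_5 h0 h1) (cr_2_3_6 h0 h1)))
    · exact (disjoint_of_side (mul_pos_of_neg_of_neg (cr_2_3_6 h0 h1) (cr_2_3_7 h0 h1)))
    · exact (disjoint_of_side (mul_pos (cr_3_4_5 h0 h1) (cr_3_4_6 h0 h1)))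
    · exact (disjoint_of_side (mul_pos (cr_3_4_6 h0 h1) (cr_3_4_7 h0 h1)))
    · exact (disjoint_of_side (mul_pos (cr_4_5_6 h0 h1) (cr_4_5_7 h0 h1)))

lemma cfg_inv : Inv (lv (cfg e)) := by
  intro k
  fin_cases k <;>
    simp [g, lv, t1, t2, t5, t6, cfg, cross] <;>
    nlinarith [mul_pos h0 h0, mul_pos h0 (mul_pos h0 h0), mul_lt_mul_of_pos_left h1 h0,
      mul_lt_mul_of_pos_left h1 (mul_pos h0 h0)]

end

lemma D_ne (j : Fin 7) : D j ≠ 0 := by
  intro h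
  have := congrArg Complex.re h
  fin_cases j <;> simp [D] at this

/-- The state of the tight configuration. -/
noncomputable def st (e : ℝ) : St :=
  (fun j => ‖lv (cfg e) j / D j‖, fun j => Complex.arg (lv (cfg e) j / D j))

lemma dv_st (e : ℝ) : dv (st e) = lv (cfg e) := by
  ext j
  unfold dv st
  simp only
  rw [mul_assoc, Complex.norm_mul_exp_arg_mul_I, mul_div_cancel₀ _ (D_ne j)]

lemma continuous_cfg (k : Fin (7 + 1)) : Continuous fun e => cfg e k := by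
  have key : ∀ f g : ℝ → ℝ, Continuous f → Continuous g →
      Continuous fun e => (⟨f e, g e⟩ : ℂ) := by
    intro f g hf hg
    have : (fun e => (⟨f e, g e⟩ : ℂ)) = fun e => (f e : ℂ) + (g e : ℂ) * Complex.I := by
      ext e; exact Complex.mk_eq_add_mul_I _ _
    rw [this]; fun_prop
  fin_cases k <;> simp only [cfg, Fin.zero_eta, Fin.mk_one, Fin.reduceFinMk, Matrix.cons_val] <;>
    exact key _ _ (by fun_prop) (by fun_prop)

lemma lv_cfg_zero (j : Fin 7) : lv (cfg 0) j = D j := by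
  fin_cases j <;> apply Complex.ext <;> simp [lv, cfg, D] <;> norm_num

lemma tendsto_st : Tendsto st (𝓝 0) (𝓝 x0) := by
  have h : ∀ j, Tendsto (fun e => lv (cfg e) j / D j) (𝓝 0) (𝓝 1) := by
    intro j
    have hc : Continuous fun e => lv (cfg e) j / D j :=
      ((continuous_cfg _).sub (continuous_cfg _)).div_const _
    have := hc.tendsto 0
    rwa [lv_cfg_zero, div_self (D_ne j)] at this
  refine Tendsto.prodMk_nhds (tendsto_pi_nhds.2 fun j => ?_) (tendsto_pi_nhds.2 fun j => ?_)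
  · simpa using (h j).norm
  · have := (Complex.continuousAt_arg (x := 1) (by simp)).tendsto.comp (h j)
    simpa [Function.comp_def] using this

/-- For seven links the number of moves needed is unbounded. -/
theorem unbounded_moves (N : ℕ) :
    ∃ p : Fin (7 + 1) → ℂ, IsSimple p ∧ ∀ m, StraightensIn p m → N < m := by
  have h1 := (tendsto_st.eventually (stuck N)).filter_mono (nhdsWithin_le_nhds (s := Ioi 0))
  have h2 : ∀ᶠ e in 𝓝[>] (0 : ℝ), e ∈ Ioo (0 : ℝ) (1 / 100) :=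
    Ioo_mem_nhdsGT (by norm_num)
  obtain ⟨e, he, he0, he1⟩ := (h1.and h2).exists
  refine ⟨cfg e, cfg_simple he0 he1, fun m hm => ?_⟩
  by_contra hcon
  refine he (by rw [dv_st]; exact cfg_inv he0 he1) (cfg e) ⟨1, one_ne_zero, fun j => ?_⟩ m
    (not_lt.1 hcon) hm
  rw [dv_st, one_mul]

end Pool.Agent.MP_7e0f10_lc
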