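import Pool.Agent.MP_7e0f10_lc.Defs
import Pool.Agent.MP_7e0f10_lc.Core

/-! Moves of a seven-link chain are straight segments in the state space. -/

namespace Pool.Agent.MP_7e0f10_lc

open Filter Topology Set

/-- Link vectors of a configuration. -/
def lv (p : Fin (7 + 1) → ℂ) : Fin 7 → ℂ := fun j => p j.succ - p j.castSucc

/-- The configuration `p` has, up to a similarity, the link vectors of the state `x`. -/
def Rep (p : Fin (7 + 1) → ℂ) (x : St) : Prop := ∃ w : ℂ, w ≠ 0 ∧ ∀ j, lv p j = w * dv x j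

lemma free_of_simple {p : Fin (7 + 1) → ℂ} (h : IsSimple p) : Free (lv p) := by
  obtain ⟨h0, h1, h2⟩ := h
  have L : ∀ i j : Fin 7, i.val + 1 < j.val → p i.castSucc ∉ link p j := fun i j hij =>
    Set.disjoint_left.1 (h2 i j hij) (left_mem_segment _ _ _)
  have R : ∀ i j : Fin 7, i.val + 1 < j.val → p j.succ ∉ link p i := fun i j hij =>
    Set.disjoint_right.1 (h2 i j hij) (right_mem_segment _ _ _)
  have L' : ∀ i j : Fin 7, i.val + 1 < j.val → p i.succ ∉ link p j := fun i j hij =>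
    Set.disjoint_left.1 (h2 i j hij) (right_mem_segment _ _ _)
  have m1 : p 7 ∉ segment ℝ (p 6) (p 5) := by
    intro hm
    have := h1 5 6 rfl ⟨by rw [segment_symm] at hm; exact hm, right_mem_segment _ _ _⟩
    have h7 := h0 6
    rw [Set.mem_singleton_iff] at this
    unfold linkLength at h7
    have e : p (Fin.succ 6) = p (Fin.castSucc 6) := this
    rw [e, dist_self] at h7
    exact lt_irrefl _ h7
  have m2 : p 0 ∉ segment ℝ (p 6) (p 7) := L 0 6 (by decide)
  have m3 : p 0 ∉ segment ℝ (p 6) (p 5) := by rw [segment_symm]; exact L 0 5 (by decide)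
  have m4 : p 1 ∉ segment ℝ (p 5) (p 6) := L' 0 5 (by decide)
  have m5 : p 1 ∉ segment ℝ (p 5) (p 4) := by rw [segment_symm]; exact L' 0 4 (by decide)
  have m6 : p 6 ∉ segment ℝ (p 2) (p 1) := by rw [segment_symm]; exact R 1 5 (by decide)
  have m7 : p 6 ∉ segment ℝ (p 2) (p 3) := R 2 5 (by decide)
  have m8 : p 7 ∉ segment ℝ (p 1) (p 2) := R 1 6 (by decide)
  have e0 : lv p 0 = p 1 - p 0 := rfl
  have e1 : lv p 1 = p 2 - p 1 := rfl
  have e2 : lv p 2 = p 3 - p 2 := rfl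
  have e3 : lv p 3 = p 4 - p 3 := rfl
  have e4 : lv p 4 = p 5 - p 4 := rfl
  have e5 : lv p 5 = p 6 - p 5 := rfl
  have e6 : lv p 6 = p 7 - p 6 := rfl
  refine ⟨?_, ?_, ?_, ?_, ?_, ?_, ?_, ?_⟩
  · convert off_of_not_mem m1 using 1; rw [e5]; ring
  · convert off_of_not_mem m2 using 1; unfold t6; rw [e0, e1, e2, e3, e4, e5]; ring
  · convert off_of_not_mem m3 using 1
    · unfold t6; rw [e0, e1, e2, e3, e4, e5]; ring
    · rw [e5]; ring
  · convert off_of_not_mem m4 using 1; unfold t5; rw [e1, e2, e3, e4]; ring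
  · convert off_of_not_mem m5 using 1
    · unfold t5; rw [e1, e2, e3, e4]; ring
    · rw [e4]; ring
  · convert off_of_not_mem m6 using 1
    · unfold t2; rw [e2, e3, e4, e5]; ring
    · rw [e1]; ring
  · convert off_of_not_mem m7 using 1; unfold t2; rw [e2, e3, e4, e5]; ring
  · convert off_of_not_mem m8 using 1; unfold t1; rw [e1, e2, e3, e4, e5, e6]; ring

lemma not_straight {p : Fin (7 + 1) → ℂ} {x : St} (hr : Rep p x) (hn : Near (dv x)) :
    ¬ IsStraight p := by
  intro hs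
  obtain ⟨w, hw, hr⟩ := hr
  have h := hs 5 6 rfl
  unfold jointAngle at h
  rw [Complex.arg_coe_angle_eq_iff_eq_toReal, Real.Angle.toReal_pi, Complex.arg_eq_pi_iff] at h
  have e5 : p (Fin.castSucc 5) - p (Fin.succ 5) = w * (-dv x 5) := by
    have := hr 5; unfold lv at this; linear_combination (-1 : ℂ) * this
  have e6 : p (Fin.succ 6) - p (Fin.succ 5) = w * dv x 6 := hr 6
  rw [e5, e6, mul_div_mul_left _ _ hw, Complex.div_re] at h
  have n0 := hn 0
  simp only [nr, Matrix.cons_val] at n0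
  unfold dot at n0
  have : 0 ≤ (dv x 6).re * (-dv x 5).re / Complex.normSq (-dv x 5) +
      (dv x 6).im * (-dv x 5).im / Complex.normSq (-dv x 5) := by
    rw [← add_div]
    exact div_nonneg (by linarith) (Complex.normSq_nonneg _)
  linarith [h.1]

lemma eq_of_angle {e f : ℂ} {θ : ℝ} (he : e ≠ 0)
    (h : ((Complex.arg (f / (-e)) : ℝ) : Real.Angle) = (θ : Real.Angle)) :
    f = -e * ((‖f‖ / ‖e‖ : ℝ) : ℂ) * Complex.exp ((θ : ℂ) * Complex.I) := by
  have h1 := Complex.norm_mul_exp_arg_mul_I (f / (-e))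
  have hc := congrArg Real.Angle.cos h
  have hs := congrArg Real.Angle.sin h
  rw [Real.Angle.cos_coe, Real.Angle.cos_coe] at hc
  rw [Real.Angle.sin_coe, Real.Angle.sin_coe] at hs
  have h2 : Complex.exp (((f / (-e)).arg : ℂ) * Complex.I) = Complex.exp ((θ : ℂ) * Complex.I) := by
    apply Complex.ext
    · rw [Complex.exp_ofReal_mul_I_re, Complex.exp_ofReal_mul_I_re, hc]
    · rw [Complex.exp_ofReal_mul_I_im, Complex.exp_ofReal_mul_I_im, hs]
  rw [h2, norm_div, norm_neg] at h1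
  rw [mul_assoc, h1]
  field_simp

lemma angle_step {e f e' f' w : ℂ} {a b c t : ℝ} (he : e ≠ 0) (hee : ‖e'‖ = ‖e‖)
    (hff : ‖f'‖ = ‖f‖)
    (h0 : ((Complex.arg (f / (-e)) : ℝ) : Real.Angle) = ((a + b * 0 : ℝ) : Real.Angle))
    (h1 : ((Complex.arg (f' / (-e')) : ℝ) : Real.Angle) = ((a + b * t : ℝ) : Real.Angle))
    (hw : e' = w * e * Complex.exp (((t * c : ℝ) : ℂ) * Complex.I)) :
    f' = w * f * Complex.exp (((t * (c + b) : ℝ) : ℂ) * Complex.I) := by
  have he' : e' ≠ 0 := by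
    rw [← norm_ne_zero_iff, hee, norm_ne_zero_iff]; exact he
  have k0 := eq_of_angle he h0
  have k1 := eq_of_angle he' h1
  rw [hee, hff] at k1
  have x1 : Complex.exp (((t * c : ℝ) : ℂ) * Complex.I) *
      Complex.exp (((a + b * t : ℝ) : ℂ) * Complex.I) =
      Complex.exp (((a + b * 0 : ℝ) : ℂ) * Complex.I) *
      Complex.exp (((t * (c + b) : ℝ) : ℂ) * Complex.I) := by
    rw [← Complex.exp_add, ← Complex.exp_add]; congr 1; push_cast; ring
  generalize ((‖f‖ / ‖e‖ : ℝ) : ℂ) = r at k0 k1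
  rw [k1, k0, hw]
  linear_combination (-(w * e * r)) * x1

lemma move_segment {p q : Fin (7 + 1) → ℂ} {x : St} (hr : Rep p x) (hm : IsMove p q) :
    ∃ c : Fin 7 → ℝ, c 0 = 0 ∧ Rep q (x.1, x.2 + c) ∧
      ∀ t ∈ Icc (0 : ℝ) 1, Free (dv (x.1, x.2 + t • c)) := by
  obtain ⟨γ, -, g0, g1, hs, ha⟩ := hm
  obtain ⟨w, hw, hr⟩ := hr
  have len : ∀ t ∈ Icc (0 : ℝ) 1, ∀ j, ‖lv (γ t) j‖ = ‖lv p j‖ := by
    intro t ht j
    have := (hs t ht).2 j
    unfold linkLength at this
    rw [dist_comm, dist_eq_norm, dist_comm, dist_eq_norm] at this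
    exact this
  have ne : ∀ j, lv p j ≠ 0 := by
    intro j
    have := (hs 0 (by simp)).1.1 j
    rw [g0] at this
    unfold linkLength at this
    rw [dist_comm, dist_eq_norm, norm_pos_iff] at this
    exact this
  have ang : ∀ i j : Fin 7, i.val + 1 = j.val → ∃ b : ℝ, ∀ t ∈ Icc (0 : ℝ) 1, ∀ (u : ℂ) (c : ℝ),
      lv (γ t) i = u * lv p i * Complex.exp (((t * c : ℝ) : ℂ) * Complex.I) →
      lv (γ t) j = u * lv p j * Complex.exp (((t * (c + b) : ℝ) : ℂ) * Complex.I) := by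
    intro i j hij
    obtain ⟨a, b, hab⟩ := ha i j hij
    have e : i.succ = j.castSucc := by ext; simpa using hij
    have form : ∀ r : Fin (7 + 1) → ℂ,
        jointAngle r i j = ((Complex.arg (lv r j / (-lv r i)) : ℝ) : Real.Angle) := by
      intro r
      unfold jointAngle lv
      rw [neg_sub, e]
    refine ⟨b, fun t ht u c hu => ?_⟩
    have h0 := hab 0 (by simp)
    have h1 := hab t ht
    rw [form] at h0 h1
    rw [g0] at h0
    exact angle_step (ne i) (len t ht i) (len t ht j) h0 h1 hu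
  obtain ⟨b0, k0⟩ := ang 0 1 rfl
  obtain ⟨b1, k1⟩ := ang 1 2 rfl
  obtain ⟨b2, k2⟩ := ang 2 3 rfl
  obtain ⟨b3, k3⟩ := ang 3 4 rfl
  obtain ⟨b4, k4⟩ := ang 4 5 rfl
  obtain ⟨b5, k5⟩ := ang 5 6 rfl
  set c : Fin 7 → ℝ := ![0, 0 + b0, 0 + b0 + b1, 0 + b0 + b1 + b2, 0 + b0 + b1 + b2 + b3,
    0 + b0 + b1 + b2 + b3 + b4, 0 + b0 + b1 + b2 + b3 + b4 + b5] with hc
  have key : ∀ t ∈ Icc (0 : ℝ) 1, Rep (γ t) (x.1, x.2 + t • c) := by
    intro t ht
    set u : ℂ := lv (γ t) 0 / lv p 0 with hu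
    have u0 : u ≠ 0 := by
      refine div_ne_zero ?_ (ne 0)
      rw [← norm_ne_zero_iff, len t ht, norm_ne_zero_iff]; exact ne 0
    have j0 : lv (γ t) 0 = u * lv p 0 * Complex.exp (((t * 0 : ℝ) : ℂ) * Complex.I) := by
      rw [hu, div_mul_cancel₀ _ (ne 0)]; simp
    have j1 := k0 t ht u _ j0
    have j2 := k1 t ht u _ j1
    have j3 := k2 t ht u _ j2
    have j4 := k3 t ht u _ j3
    have j5 := k4 t ht u _ j4
    have j6 := k5 t ht u _ j5
    have jj : ∀ j, lv (γ t) j = u * lv p j * Complex.exp (((t * c j : ℝ) : ℂ) * Complex.I) := by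
      intro j
      fin_cases j
      exacts [j0, j1, j2, j3, j4, j5, j6]
    refine ⟨u * w, mul_ne_zero u0 hw, fun j => ?_⟩
    rw [jj j, hr j]
    unfold dv
    simp only [Pi.add_apply, Pi.smul_apply, smul_eq_mul]
    have : Complex.exp (((x.2 j + t * c j : ℝ) : ℂ) * Complex.I) =
        Complex.exp ((x.2 j : ℂ) * Complex.I) * Complex.exp (((t * c j : ℝ) : ℂ) * Complex.I) := by
      rw [← Complex.exp_add]; congr 1; push_cast; ring
    rw [this]; ring
  refine ⟨c, rfl, ?_, fun t ht => ?_⟩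
  · have := key 1 (by simp)
    rwa [g1, one_smul] at this
  · obtain ⟨u, -, hu⟩ := key t ht
    have := free_of_simple (hs t ht).1
    rw [show lv (γ t) = fun j => u * dv (x.1, x.2 + t • c) j from funext hu] at this
    exact this.of_mul

/-- Close enough to the limit, `N` moves do not straighten the chain. -/
lemma stuck (N : ℕ) : ∀ᶠ x in 𝓝 x0, Inv (dv x) → ∀ p, Rep p x → ∀ m ≤ N, ¬ StraightensIn p m := by
  have hN : ∀ᶠ x in 𝓝 x0, Near (dv x) := by
    have : Tendsto dv (𝓝 x0) (𝓝 D) := by rw [← dv_x0]; exact continuous_dv.continuousAt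
    exact this.eventually eventually_near
  have zero : ∀ x, Near (dv x) → ∀ p, Rep p x → ¬ StraightensIn p 0 := by
    rintro x hx p hp ⟨c, c0, -, cs⟩
    rw [c0] at cs
    exact not_straight hp hx cs
  induction N with
  | zero =>
    filter_upwards [hN] with x hx _ p hp m hm
    rw [Nat.le_zero.1 hm]
    exact zero x hx p hp
  | succ N ih =>
    filter_upwards [hN, core ih] with x hx hcore hi p hp m hm
    rcases m with _ | m
    · exact zero x hx p hp
    · rintro ⟨c, c0, cm, cs⟩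
      have hmove := cm 0 (Nat.succ_pos _)
      rw [c0] at hmove
      obtain ⟨v, v0, hq, hf⟩ := move_segment hp hmove
      obtain ⟨h1, h2⟩ := hcore v v0 hi hf
      refine h1 h2 _ hq m (by omega) ⟨fun k => c (k + 1), rfl, fun k hk => cm (k + 1) (by omega), cs⟩

end Pool.Agent.MP_7e0f10_lc
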